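import Mathlib

set_option autoImplicit false

/-! # The `r`-dynamic chromatic number is not `O(treewidth + r)` -/

namespace Pool.Agent.Results.MP_96dc1b_co.DynamicTreewidth

/-- `φ` is an `r`-dynamic colouring of `G`: it is proper, and the neighbourhood of every vertex `v`
receives at least `min (r, deg v)` colours. -/
def IsDynamicColouring {V κ : Type} (G : SimpleGraph V) (r : ℕ) (φ : V → κ) : Prop :=
  (∀ u v, G.Adj u v → φ u ≠ φ v) ∧
    ∀ v, min r (G.neighborSet v).ncard ≤ (φ '' G.neighborSet v).ncard

/-- The `r`-dynamic chromatic number: the least `k` for which there is an `r`-dynamic colouring with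
`k` colours. -/
noncomputable def dynamicChromaticNumber {V : Type} (G : SimpleGraph V) (r : ℕ) : ℕ :=
  sInf {k | ∃ φ : V → Fin k, IsDynamicColouring G r φ}

/-- `bag`, indexed by the nodes of `T`, is a tree decomposition of `G`: `T` is a tree, every vertex
and every edge lies in some bag, and for every vertex the nodes whose bags contain it induce a
connected subgraph of `T`. -/
structure IsTreeDecomposition {V ι : Type} (G : SimpleGraph V) (T : SimpleGraph ι)
    (bag : ι → Set V) : Prop where
  isTree : T.IsTree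
  vertex : ∀ v, ∃ i, v ∈ bag i
  edge : ∀ u v, G.Adj u v → ∃ i, u ∈ bag i ∧ v ∈ bag i
  connected : ∀ v, (T.induce {i | v ∈ bag i}).Connected

/-- The treewidth of a finite graph: the least `w` for which there is a tree decomposition all of
whose bags have at most `w + 1` vertices. -/
noncomputable def treewidth {V : Type} (G : SimpleGraph V) : ℕ :=
  sInf {w | ∃ (ι : Type) (_ : Finite ι) (T : SimpleGraph ι) (bag : ι → Set V),
    IsTreeDecomposition G T bag ∧ ∀ i, (bag i).ncard ≤ w + 1}

section construction

variable (s m : ℕ)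

/-- the vertices: `s` parts of `m` points, and one vertex for every ordered pair of parts -/
abbrev Vx := (Fin s × Fin m) ⊕ (Fin s × Fin s)

/-- the vertex of the pair `(i, j)` is joined to all the points in the parts `i` and `j` -/
def gr : SimpleGraph (Vx s m) where
  Adj
    | .inl p, .inr q => p.1 = q.1 ∨ p.1 = q.2
    | .inr q, .inl p => p.1 = q.1 ∨ p.1 = q.2
    | _, _ => False
  symm := ⟨by
    rintro (a | a) (b | b) h
    · exact h
    · exact h
    · exact h
    · exact h⟩
  loopless := ⟨by rintro (a | a) h <;> exact h⟩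

variable {s m}

/-- in a dynamic colouring the neighbours of a vertex of degree at most `r` have different colours -/
theorem injOn_of_dynamic {V κ : Type} [Finite V] {G : SimpleGraph V} {r : ℕ} {φ : V → κ}
    (h : IsDynamicColouring G r φ) {v : V} (hv : (G.neighborSet v).ncard ≤ r) :
    Set.InjOn φ (G.neighborSet v) := by
  have h1 := h.2 v
  rw [min_eq_right hv] at h1
  have h2 := Set.ncard_image_le (f := φ) (Set.toFinite (G.neighborSet v))
  exact (Set.ncard_image_iff (Set.toFinite _)).mp (le_antisymm h2 h1)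

theorem neighborSet_inr (q : Fin s × Fin s) :
    (gr s m).neighborSet (.inr q) = Sum.inl '' ({p | p.1 = q.1 ∨ p.1 = q.2} : Set (Fin s × Fin m)) := by
  ext x
  rcases x with p | p
  · simp only [SimpleGraph.mem_neighborSet, Set.mem_image, Set.mem_ofPred_eq]
    constructor
    · intro h
      exact ⟨p, h, rfl⟩
    · rintro ⟨p', h, h'⟩
      cases h'
      exact h
  · simp only [SimpleGraph.mem_neighborSet, Set.mem_image, Set.mem_ofPred_eq]
    constructor
    · intro h
      exact h.elim
    · rintro ⟨p', h, h'⟩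
      cases h'

theorem degree_inr (q : Fin s × Fin s) : ((gr s m).neighborSet (.inr q)).ncard ≤ 2 * m := by
  rw [neighborSet_inr]
  refine (Set.ncard_image_le (Set.toFinite _)).trans ?_
  have h1 : ({p | p.1 = q.1 ∨ p.1 = q.2} : Set (Fin s × Fin m)) ⊆
      ((fun a => (q.1, a)) '' Set.univ) ∪ ((fun a => (q.2, a)) '' Set.univ) := by
    rintro ⟨i, a⟩ (h | h)
    · exact Or.inl ⟨a, trivial, by simp_all⟩
    · exact Or.inr ⟨a, trivial, by simp_all⟩
  refine (Set.ncard_le_ncard h1 (Set.toFinite _)).trans ?_
  refine (Set.ncard_union_le _ _).trans ?_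
  have h2 : ∀ i : Fin s, ((fun a : Fin m => (i, a)) '' Set.univ).ncard ≤ m := by
    intro i
    refine (Set.ncard_image_le (Set.toFinite _)).trans ?_
    simp [Set.ncard_univ]
  have := h2 q.1
  have := h2 q.2
  omega

/-- in a `2m`-dynamic colouring all points have different colours -/
theorem points_inj {κ : Type} {φ : Vx s m → κ} (h : IsDynamicColouring (gr s m) (2 * m) φ) :
    Function.Injective (fun p : Fin s × Fin m => φ (.inl p)) := by
  intro p p' hpp
  have h1 := injOn_of_dynamic h (degree_inr (p.1, p'.1))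
  have h3 : (Sum.inl p : Vx s m) ∈ (gr s m).neighborSet (.inr (p.1, p'.1)) := by
    rw [neighborSet_inr]; exact ⟨p, Or.inl rfl, rfl⟩
  have h4 : (Sum.inl p' : Vx s m) ∈ (gr s m).neighborSet (.inr (p.1, p'.1)) := by
    rw [neighborSet_inr]; exact ⟨p', Or.inr rfl, rfl⟩
  have h2 := h1 h3 h4 hpp
  exact Sum.inl_injective h2

theorem le_dynamic : s * m ≤ dynamicChromaticNumber (gr s m) (2 * m) := by
  have hne : {k | ∃ φ : Vx s m → Fin k, IsDynamicColouring (gr s m) (2 * m) φ}.Nonempty := by
    refine ⟨Fintype.card (Vx s m), Fintype.equivFin _, ?_, ?_⟩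
    · intro u v h h'
      exact h.ne ((Fintype.equivFin _).injective h')
    · intro v
      rw [Set.ncard_image_of_injective _ (Fintype.equivFin _).injective]
      exact min_le_right _ _
  obtain ⟨φ, hφ⟩ := Nat.sInf_mem hne
  have h1 := Fintype.card_le_of_injective _ (points_inj hφ)
  simpa [dynamicChromaticNumber] using h1

theorem treewidth_le (hs : 0 < s) (hm : 0 < m) : treewidth (gr s m) ≤ s * s := by
  have : Nonempty (Fin s × Fin m) := ⟨(⟨0, hs⟩, ⟨0, hm⟩)⟩
  obtain ⟨T, -, hT⟩ := (SimpleGraph.connected_top (V := Fin s × Fin m)).exists_isTree_le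
  refine Nat.sInf_le ⟨Fin s × Fin m, inferInstance, T,
    fun p => insert (.inl p) (Set.range .inr), ⟨hT, ?_, ?_, ?_⟩, ?_⟩
  · rintro (p | q)
    · exact ⟨p, by simp⟩
    · exact ⟨Classical.arbitrary _, by simp⟩
  · rintro (p | q) (p' | q') h
    · exact h.elim
    · exact ⟨p, by simp, by simp⟩
    · exact ⟨p', by simp, by simp⟩
    · exact h.elim
  · rintro (p | q)
    · have h1 : {i | (Sum.inl p : Vx s m) ∈ insert (Sum.inl i) (Set.range Sum.inr)} =
          ({p} : Set (Fin s × Fin m)) := by
        ext i
        simp [eq_comm]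
      rw [h1]
      have : Subsingleton ({p} : Set (Fin s × Fin m)) := by
        constructor
        rintro ⟨a, ha⟩ ⟨b, hb⟩
        exact Subtype.ext (ha.trans hb.symm)
      have : Nonempty ({p} : Set (Fin s × Fin m)) := ⟨⟨p, rfl⟩⟩
      exact SimpleGraph.Connected.mk (SimpleGraph.Preconnected.of_subsingleton)
    · have h1 : {i | (Sum.inr q : Vx s m) ∈ insert (Sum.inl i) (Set.range Sum.inr)} =
          (Set.univ : Set (Fin s × Fin m)) := by
        ext i
        simp
      rw [h1]
      exact (SimpleGraph.induceUnivIso T).connected_iff.mpr hT.connected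
  · intro p
    refine (Set.ncard_insert_le _ _).trans ?_
    have h1 : (Set.range (Sum.inr : Fin s × Fin s → Vx s m)).ncard ≤ s * s := by
      rw [← Set.image_univ]
      refine (Set.ncard_image_le (Set.toFinite _)).trans ?_
      simp [Set.ncard_univ]
    omega

end construction

/-- There is no constant `C` with `χ_r(G) ≤ C * (tw(G) + r)` for all finite graphs `G` and all
`r ≥ 1`. -/
theorem result : ¬ ∃ C : ℝ, ∀ (V : Type) [Finite V] (G : SimpleGraph V) (r : ℕ), 1 ≤ r →
    (dynamicChromaticNumber G r : ℝ) ≤ C * ((treewidth G : ℝ) + r) := by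
  rintro ⟨C, hC⟩
  obtain ⟨c, hc⟩ := exists_nat_ge C
  set s := 2 * c + 2 with hs
  set m := c * (s * s) + 1 with hm
  have h1 := hC (Vx s m) (gr s m) (2 * m) (by omega)
  have h2 : ((s * m : ℕ) : ℝ) ≤ dynamicChromaticNumber (gr s m) (2 * m) := by
    exact_mod_cast le_dynamic
  have h3 : ((treewidth (gr s m) : ℕ) : ℝ) ≤ ((s * s : ℕ) : ℝ) := by
    exact_mod_cast treewidth_le (s := s) (m := m) (by omega) (by omega)
  have h4 : C * ((treewidth (gr s m) : ℝ) + ((2 * m : ℕ) : ℝ)) ≤
      (c : ℝ) * (((s * s : ℕ) : ℝ) + ((2 * m : ℕ) : ℝ)) :=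
    mul_le_mul hc (by linarith) (by positivity) (by positivity)
  have h5 : ((s * m : ℕ) : ℝ) ≤ ((c * (s * s + 2 * m) : ℕ) : ℝ) := by
    push_cast at *
    linarith
  have h6 : s * m ≤ c * (s * s + 2 * m) := by exact_mod_cast h5
  have h7 : s * m = 2 * c * m + 2 * m := by rw [hs]; ring
  have h8 : c * (s * s + 2 * m) = c * (s * s) + 2 * c * m := by ring
  omega

end Pool.Agent.Results.MP_96dc1b_co.DynamicTreewidth
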